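import Pool.Agent.Helper39.SX.FinalOf
import Pool.Agent.Helper55.SX.GridX
import Pool.Agent.Helper68.SX.Pot
import Pool.Agent.Helper11.SX.Charge
import Pool.Agent.Helper80.WM.DenseGen2

/-!
# All weights, the constant `log_2 (1 + 1 / k)`
-/

set_option autoImplicit false

namespace Pool.Agent.Helper39.SX

open Pool.Agent.Helper68.SP Pool.Agent.Helper39.SR Pool.Agent.Helper39.SW

/-- The optimum over the subsets of `A` depends only on the weights on `A`. -/
theorem optC_congr {E : Type} {Com : Finset E → Prop} {w w' : E → ℝ}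
    {A : Finset E} (h : ∀ e ∈ A, w e = w' e) : optC Com w A = optC Com w' A := by
  unfold optC
  congr 1
  ext t
  constructor
  · rintro ⟨S, h1, h2, h3⟩
    exact ⟨S, h1, h2, h3.trans (Finset.sum_congr rfl fun e he => h e (h1 he))⟩
  · rintro ⟨S, h1, h2, h3⟩
    exact ⟨S, h1, h2, h3.trans (Finset.sum_congr rfl fun e he => (h e (h1 he)).symm)⟩

/-- The block theorem with every constant below `log_2 (1 + 1 / k)`. -/
theorem block_x {k : ℕ} (hk : 1 ≤ k) {η : ℝ} (hη : 0 < η) :
    Block k (Real.logb 2 (1 + 1 / (k : ℝ)) - η) (min (η / 2) (1 / 2)) := by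
  classical
  intro E _ _ M hE L hL S hSi hSd w s Γ hs hΓ hSw p δ hp hp1 hδ hδ1 hLd hLp
  have hkR : (1 : ℝ) ≤ k := by exact_mod_cast hk
  have hδη : δ ≤ η / 2 := hδ1.trans (min_le_left _ _)
  have hδh : δ ≤ 1 / 2 := hδ1.trans (min_le_right _ _)
  have ha1 : Real.logb 2 (1 + 1 / (k : ℝ)) ≤ 1 := a_le_one hk
  obtain ⟨a, ha⟩ : ∃ a : ℝ, a = Real.logb 2 (1 + 1 / (k : ℝ)) := ⟨_, rfl⟩
  rw [← ha] at ha1 ⊢
  obtain ⟨J, hJ, hgrid⟩ := Pool.Agent.Helper55.SX.grids_x hk (lam := a - η / 2)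
    (by rw [ha]; linarith)
  obtain ⟨wc, hwc⟩ : ∃ wc : E → ℝ, ∀ e, wc e = max s (min (w e) (Γ * s)) := ⟨_, fun _ => rfl⟩
  have hwcS : ∀ t < L, ∀ e ∈ S t, wc e = w e := by
    intro t ht e he
    rw [hwc, min_eq_left (hSw t ht e he).2, max_eq_right (hSw t ht e he).1]
  have hwcb : ∀ e, s ≤ wc e ∧ wc e ≤ Γ * s := by
    intro e
    rw [hwc]
    refine ⟨le_max_left _ _, max_le ?_ (min_le_right _ _)⟩
    nlinarith
  obtain ⟨cls, D, hD0, hD2, hDw, havg⟩ := hgrid wc hs hwcb
  have hpot := fun σ => Pool.Agent.Helper68.SX.exists_pot (cls σ) wc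
  choose u hu0 hu1 hu3 hu2 using hpot
  have hkey := Pool.Agent.Helper80.WM.dense_avg_gen1 M hL S hSi hSd wc hs hΓ
    (fun t _ e _ => hwcb e) hp hp1 hδ (by linarith) hLd (J := J) hJ u
    (fun σ e => min (D σ (cls σ e)) ((k : ℝ) / 2 * wc e - ((k : ℝ) - 1) / 2 * D σ (cls σ e)))
    (c := (k : ℝ) / 2) (κ := (k : ℝ) / 2 * (a - η / 2)) (by positivity)
    (by
      have h1 : 1 / ((k : ℝ) / 2) * ((k : ℝ) / 2 * (a - η / 2)) = a - η / 2 := by
        field_simp
      rw [h1]
      linarith)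
    (fun σ t _ e _ => by
      refine (min_le_right _ _).trans ?_
      have := mul_nonneg (by linarith : (0 : ℝ) ≤ ((k : ℝ) - 1) / 2) (hD0 σ (cls σ e))
      linarith)
    (fun t _ e _ => havg e)
    (fun σ B hB t ht => by
      obtain ⟨F, hF1, hF2, hF3⟩ := Pool.Agent.Helper11.SX.many_gen M hE (cls σ) (u σ)
        (fun e => min (D σ (cls σ e)) ((k : ℝ) / 2 * wc e - ((k : ℝ) - 1) / 2 * D σ (cls σ e)))
        wc (fun e => D σ (cls σ e) / 2) ((k : ℝ) / 2) (hu0 σ) (hu1 σ)
        (fun e e' y h1 h2 => by have := hu2 σ y e e' h1 h2; linarith)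
        (fun e y h1 h2 => by have := hu3 σ y e h1 h2; linarith)
        (fun e => by
          refine le_min (hD0 σ _) ?_
          have h1 := (hDw σ e).1
          have h2 := hD0 σ (cls σ e)
          nlinarith)
        (fun e => div_nonneg (hD0 σ _) (by norm_num))
        (fun e y h1 => by
          refine (min_le_left _ _).trans ?_
          have := hD2 σ _ _ h1
          linarith)
        (fun e y h1 => by
          refine (min_le_left _ _).trans ?_
          rw [h1]
          linarith)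
        (fun e y h1 h2 => by
          have h3 := min_le_right (D σ (cls σ e))
            ((k : ℝ) / 2 * wc e - ((k : ℝ) - 1) / 2 * D σ (cls σ e))
          have h4 : (k : ℝ) / 2 * wc e ≤ (k : ℝ) / 2 * wc y :=
            mul_le_mul_of_nonneg_left h2 (by positivity)
          rw [← h1]
          linarith)
        (fun y => by
          have h1 := (hDw σ y).1
          have h2 : (k : ℝ) / 2 * D σ (cls σ y) ≤ (k : ℝ) / 2 * wc y :=
            mul_le_mul_of_nonneg_left h1 (by positivity)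
          linarith)
        (fun e => by
          refine (min_le_right _ _).trans ?_
          have := mul_nonneg (by linarith : (0 : ℝ) ≤ ((k : ℝ) - 1) / 2) (hD0 σ (cls σ e))
          linarith)
        hB (Γ := Γ * s) (S t).card (S t) rfl (hSi t ht)
        (fun e _ => (min_le_left _ _).trans ((hDw σ e).1.trans (hwcb e).2))
      exact ⟨F, hF1, hF2, hF3⟩)
  have hsumS : ∑ t ∈ Finset.range L, ∑ e ∈ S t, wc e = ∑ t ∈ Finset.range L, ∑ e ∈ S t, w e :=
    Finset.sum_congr rfl fun t ht => Finset.sum_congr rfl fun e he =>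
      hwcS t (Finset.mem_range.1 ht) e he
  have hopt : ∀ R : Finset E, optC (fun T : Finset E => ∀ i, (M i).Indep (T : Set E)) wc
      ((Finset.range L).biUnion S ∩ R) =
      optC (fun T : Finset E => ∀ i, (M i).Indep (T : Set E)) w
      ((Finset.range L).biUnion S ∩ R) := by
    intro R
    refine optC_congr fun e he => ?_
    obtain ⟨t, ht, het⟩ := Finset.mem_biUnion.1 (Finset.mem_inter.1 he).1
    exact hwcS t (Finset.mem_range.1 ht) e het
  simp only [hopt, hsumS] at hkey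
  refine le_trans ?_ hkey
  have h0 : 0 ≤ (1 / (L : ℝ)) * ∑ t ∈ Finset.range L, ∑ e ∈ S t, w e := by
    refine mul_nonneg (by positivity) (Finset.sum_nonneg fun t ht => Finset.sum_nonneg
      fun e he => ?_)
    exact hs.le.trans (hSw t (Finset.mem_range.1 ht) e he).1
  refine mul_le_mul_of_nonneg_right (mul_le_mul_of_nonneg_left ?_ (by linarith)) h0
  have h1 : 1 / ((k : ℝ) / 2) * ((k : ℝ) / 2 * (a - η / 2) - δ) = a - η / 2 - 2 * δ / k := by
    field_simp
  rw [h1]
  have h2 : 2 * δ / k ≤ 2 * δ := div_le_self (by linarith) hkR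
  linarith

/-- **All weights**: arbitrary matroids of any rank, ratio `a / (1 + a)`, `a = log_2 (1 + 1 / k)`. -/
theorem weighted_x {k : ℕ} (hk : 1 ≤ k) {ε : ℝ} (hε : 0 < ε) : ∃ C : ℝ, 0 < C ∧
    ∀ (E : Type) [Fintype E] [DecidableEq E] (M : Fin k → Matroid E) (w : E → ℝ),
      (∀ e, 0 ≤ w e) → ∀ p : ℝ, 0 < p → p ≤ 1 →
      ∃ Q : Finset E, (Q.card : ℝ) ≤ C / p ^ 2 * (1 + Real.log (1 / p)) *
          ((sSup {n : ℕ | ∃ S : Finset E, (∀ i, (M i).Indep (S : Set E)) ∧
            n = S.card} : ℕ) : ℝ) ∧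
        (1 - ε) * (Real.logb 2 (1 + 1 / (k : ℝ)) / (1 + Real.logb 2 (1 + 1 / (k : ℝ)))) *
            Ex (fun _ => p)
            (optC (fun S : Finset E => ∀ i, (M i).Indep (S : Set E)) w) ≤
          Ex (fun _ => p) (fun R =>
            optC (fun S : Finset E => ∀ i, (M i).Indep (S : Set E)) w (Q ∩ R)) := by
  have ha0 := a_pos hk
  have ha1 := a_le_one hk
  obtain ⟨a, ha⟩ : ∃ a : ℝ, a = Real.logb 2 (1 + 1 / (k : ℝ)) := ⟨_, rfl⟩
  rw [← ha] at ha0 ha1 ⊢
  obtain ⟨t, ht⟩ : ∃ t : ℝ, t = min ε 1 := ⟨_, rfl⟩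
  have ht0 : 0 < t := by rw [ht]; exact lt_min hε one_pos
  have ht1 : t ≤ 1 := by rw [ht]; exact min_le_right _ _
  have htε : t ≤ ε := by rw [ht]; exact min_le_left _ _
  have hη : 0 < a * t / 4 := by positivity
  have hat : a * t ≤ a * 1 := mul_le_mul_of_nonneg_left ht1 ha0.le
  have hB := block_x hk hη
  rw [← ha] at hB
  obtain ⟨C, hC, hmain⟩ := final_of hk (a := a - a * t / 4) (by linarith) (by linarith)
    (lt_min (by positivity) (by norm_num)) hB (ε := t / 2) (by positivity)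
  refine ⟨C, hC, ?_⟩
  intro E _ instE M w hw p hp hp1
  obtain ⟨Q, hQ1, hQ2⟩ := hmain E M w hw p hp hp1
  refine ⟨Q, hQ1, le_trans (mul_le_mul_of_nonneg_right ?_ ?_) hQ2⟩
  · have hx : 0 ≤ a / (1 + a) := by positivity
    have h1 : (1 - t / 4) * (a / (1 + a)) ≤ (a - a * t / 4) / (1 + (a - a * t / 4)) := by
      have e1 : (1 - t / 4) * (a / (1 + a)) = (a - a * t / 4) / (1 + a) := by
        field_simp
      rw [e1]
      exact div_le_div_of_nonneg_left (by linarith) (by linarith) (by linarith)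
    calc (1 - ε) * (a / (1 + a)) ≤ (1 - t) * (a / (1 + a)) :=
          mul_le_mul_of_nonneg_right (by linarith) hx
      _ ≤ ((1 - t / 2) * (1 - t / 4)) * (a / (1 + a)) := by
          refine mul_le_mul_of_nonneg_right ?_ hx
          nlinarith
      _ = (1 - t / 2) * ((1 - t / 4) * (a / (1 + a))) := by ring
      _ ≤ (1 - t / 2) * ((a - a * t / 4) / (1 + (a - a * t / 4))) :=
          mul_le_mul_of_nonneg_left h1 (by linarith)
  · exact Ex_nonneg (fun _ => ⟨hp.le, hp1⟩) fun A => opt_nonneg (fun i => by simp) A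

end Pool.Agent.Helper39.SX
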