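import Mathlib

/-!
# The constant `log₂ (1 + 1 / k)`
-/

set_option autoImplicit false

namespace Pool.Agent.Helper39.SX

theorem numx_pos {k : ℕ} (hk : 1 ≤ k) : 0 < Real.logb 2 (1 + 1 / (k : ℝ)) := by
  have hkR : (1 : ℝ) ≤ k := by exact_mod_cast hk
  have : (0 : ℝ) < 1 / (k : ℝ) := by positivity
  exact Real.logb_pos (by norm_num) (by linarith)

theorem numx_le_one {k : ℕ} (hk : 1 ≤ k) : Real.logb 2 (1 + 1 / (k : ℝ)) ≤ 1 := by
  have hkR : (1 : ℝ) ≤ k := by exact_mod_cast hk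
  have h1 : 1 / (k : ℝ) ≤ 1 := by
    rw [div_le_one (by linarith)]
    exact hkR
  have h2 : (0 : ℝ) < 1 / (k : ℝ) := by positivity
  calc Real.logb 2 (1 + 1 / (k : ℝ)) ≤ Real.logb 2 2 :=
        Real.logb_le_logb_of_le (by norm_num) (by linarith) (by linarith)
    _ = 1 := Real.logb_self_eq_one (by norm_num)

/-- The constant beats `1 / (k - 1)` for `k ≥ 8`. -/
theorem num_x {k : ℕ} (hk : 8 ≤ k) : 1 / ((k : ℝ) - 1) ≤
    Real.logb 2 (1 + 1 / (k : ℝ)) / (1 + Real.logb 2 (1 + 1 / (k : ℝ))) := by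
  have hkR : (8 : ℝ) ≤ k := by exact_mod_cast hk
  have hk0 : (0 : ℝ) < k := by linarith
  have ha := numx_pos (show 1 ≤ k by omega)
  have h1 : 2 / (2 * (k : ℝ) + 1) ≤ Real.log (1 + 1 / (k : ℝ)) := by
    have h2 := Real.le_log_one_add_of_nonneg (x := 1 / (k : ℝ)) (by positivity)
    refine le_trans (le_of_eq ?_) h2
    field_simp
    ring
  have h3 : Real.log 2 < 0.6931471808 := Real.log_two_lt_d9
  have h4 : 0 < Real.log 2 := Real.log_pos (by norm_num)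
  have h5 : Real.log 2 ≤ ((k : ℝ) - 2) * Real.log (1 + 1 / (k : ℝ)) := by
    have h6 : ((k : ℝ) - 2) * (2 / (2 * (k : ℝ) + 1)) ≤
        ((k : ℝ) - 2) * Real.log (1 + 1 / (k : ℝ)) :=
      mul_le_mul_of_nonneg_left h1 (by linarith)
    have h7 : (12 : ℝ) / 17 ≤ ((k : ℝ) - 2) * (2 / (2 * (k : ℝ) + 1)) := by
      rw [← mul_div_assoc, div_le_div_iff₀ (by norm_num) (by linarith)]
      linarith
    linarith
  have h8 : 1 ≤ ((k : ℝ) - 2) * Real.logb 2 (1 + 1 / (k : ℝ)) := by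
    rw [Real.logb, ← mul_div_assoc, le_div_iff₀ h4]
    linarith
  rw [div_le_div_iff₀ (by linarith) (by linarith)]
  linarith

end Pool.Agent.Helper39.SX
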